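import Pool.Agent.SymASQ.Main

/-!
# MP_b5276a_an: negative answer to Q1

The real Banach space `c₀` is almost square, but its symmetric projective tensor square
(the completion of the algebraic symmetric tensor square for the norm `π_s`) is not.
-/

open scoped ZeroAtInfty

namespace Pool.Agent.Results.MP_b5276a_an.SymSquareC0NotASQ

open Pool.Agent.SymASQ

/-- **Negative answer to Q1.** The Banach space `c₀ = C₀(ℕ, ℝ)` is almost square, but the
completed symmetric projective tensor product `⊗̂_{π,s,2} c₀` is not almost square. -/
theorem result : IsASQ C₀(ℕ, ℝ) ∧ ¬ IsASQ (SymProjCompletion 2 C₀(ℕ, ℝ)) :=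
  ⟨isASQ_c0, not_isASQ_symProj_c0⟩

end Pool.Agent.Results.MP_b5276a_an.SymSquareC0NotASQ
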